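import Mathlib

/-!
A finite generating conjugacy class covered by the centralisers of three non-central powers of one
of its elements, in the wreath product of a cyclic group of order `105` with `S_4`.
-/

set_option autoImplicit false

namespace Pool.Agent.Results.MP_d14d1f_al.WreathCounterexample

/-- The wreath product of `ZMod 105` with `S_4`. -/
@[ext] structure W where
  v : Fin 4 → ZMod 105
  q : Equiv.Perm (Fin 4)

namespace W

instance : Mul W := ⟨fun a b => ⟨a.v + fun i => b.v (a.q⁻¹ i), a.q * b.q⟩⟩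
instance : One W := ⟨⟨0, 1⟩⟩
instance : Inv W := ⟨fun a => ⟨fun i => - a.v (a.q i), a.q⁻¹⟩⟩

theorem mul_def (a b : W) : a * b = ⟨a.v + fun i => b.v (a.q⁻¹ i), a.q * b.q⟩ := rfl
theorem one_def : (1 : W) = ⟨0, 1⟩ := rfl
theorem inv_def (a : W) : a⁻¹ = ⟨fun i => - a.v (a.q i), a.q⁻¹⟩ := rfl

instance : Group W where
  mul_assoc a b c := by
    ext i
    · simp [mul_def, add_assoc]
    · simp [mul_def]
  one_mul a := by
    ext i
    · simp [mul_def, one_def]
    · simp [mul_def, one_def]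
  mul_one a := by
    ext i
    · simp [mul_def, one_def]
    · simp [mul_def, one_def]
  inv_mul_cancel a := by
    ext i
    · simp [mul_def, one_def, inv_def]
    · simp [mul_def, one_def, inv_def]

def equiv : W ≃ (Fin 4 → ZMod 105) × Equiv.Perm (Fin 4) where
  toFun a := (a.v, a.q)
  invFun a := ⟨a.1, a.2⟩
  left_inv _ := rfl
  right_inv _ := rfl

instance : Finite W := Finite.of_equiv _ equiv.symm

/-- translations -/
def tr (v : Fin 4 → ZMod 105) : W := ⟨v, 1⟩
/-- permutations -/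
def pm (q : Equiv.Perm (Fin 4)) : W := ⟨0, q⟩

theorem tr_mul (v w : Fin 4 → ZMod 105) : tr v * tr w = tr (v + w) := by
  ext i <;> simp [mul_def, tr]

theorem tr_inv (v : Fin 4 → ZMod 105) : (tr v)⁻¹ = tr (-v) := by
  ext i <;> simp [inv_def, tr]

theorem tr_zero : tr 0 = 1 := rfl

theorem pm_mul (q r : Equiv.Perm (Fin 4)) : pm q * pm r = pm (q * r) := by
  ext i <;> simp [mul_def, pm]

theorem pm_inv (q : Equiv.Perm (Fin 4)) : (pm q)⁻¹ = pm q⁻¹ := by
  ext i <;> simp [inv_def, pm]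

theorem tr_mul_pm (v : Fin 4 → ZMod 105) (q : Equiv.Perm (Fin 4)) : tr v * pm q = ⟨v, q⟩ := by
  ext i <;> simp [mul_def, tr, pm]

theorem conj_tr (q : Equiv.Perm (Fin 4)) (v : Fin 4 → ZMod 105) :
    pm q * tr v * (pm q)⁻¹ = tr fun i => v (q⁻¹ i) := by
  ext i <;> simp [mul_def, inv_def, tr, pm]

theorem commute_tr_iff (v : Fin 4 → ZMod 105) (z : W) :
    Commute (tr v) z ↔ ∀ i, v (z.q⁻¹ i) = v i := by
  unfold Commute SemiconjBy
  rw [W.ext_iff]
  constructor
  · rintro ⟨h, -⟩ i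
    have := congrFun h i
    simp [mul_def, tr] at this
    rw [add_comm] at this
    exact (add_left_cancel this).symm
  · intro h
    refine ⟨?_, by simp [mul_def, tr]⟩
    funext i
    have h2 := h i
    simp only [mul_def, tr, Pi.add_apply, inv_one, Equiv.Perm.coe_one, id_eq]
    rw [h2, add_comm]

end W

open W

/-- the exponent vector of the element -/
def m : Fin 4 → ZMod 105 := ![15, 15, 21, 70]

/-- the element -/
def c : W := ⟨m, Equiv.swap 0 1⟩

theorem c_sq : c * c = tr (2 • m) := by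
  ext i
  · fin_cases i <;> decide
  · simp [mul_def, c, tr]

theorem tr_pow (v : Fin 4 → ZMod 105) (n : ℕ) : (tr v) ^ n = tr (n • v) := by
  induction n with
  | zero => simp [tr_zero]
  | succ n ih => rw [pow_succ, ih, tr_mul, succ_nsmul]

theorem c_pow (n : ℕ) : c ^ (2 * n) = tr ((2 * n) • m) := by
  rw [pow_mul, pow_two, c_sq, tr_pow]
  congr 1
  rw [mul_nsmul]

def u3 : Fin 4 → ZMod 105 := ![0, 0, 0, 70]
def u5 : Fin 4 → ZMod 105 := ![0, 0, 42, 0]
def u7 : Fin 4 → ZMod 105 := ![30, 30, 0, 0]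

theorem c_70 : c ^ 70 = tr u3 := by
  rw [show 70 = 2 * 35 from rfl, c_pow]
  congr 1
  decide

theorem c_42 : c ^ 42 = tr u5 := by
  rw [show 42 = 2 * 21 from rfl, c_pow]
  congr 1
  decide

theorem c_30 : c ^ 30 = tr u7 := by
  rw [show 30 = 2 * 15 from rfl, c_pow]
  congr 1
  decide

theorem key : ∀ q : Equiv.Perm (Fin 4),
    (∀ i, u3 ((q * Equiv.swap 0 1 * q⁻¹ : Equiv.Perm (Fin 4))⁻¹ i) = u3 i) ∨
    (∀ i, u5 ((q * Equiv.swap 0 1 * q⁻¹ : Equiv.Perm (Fin 4))⁻¹ i) = u5 i) ∨
    (∀ i, u7 ((q * Equiv.swap 0 1 * q⁻¹ : Equiv.Perm (Fin 4))⁻¹ i) = u7 i) := by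
  decide

theorem not_central {v : Fin 4 → ZMod 105} {i j : Fin 4} (h : v i ≠ v j) :
    tr v ∉ Subgroup.center W := by
  intro hc
  have h1 : Commute (tr v) (pm (Equiv.swap i j)) := (Subgroup.mem_center_iff.1 hc _).symm
  rw [commute_tr_iff] at h1
  have h2 := h1 j
  simp [pm] at h2
  exact h h2

theorem exists_power (g : W) : ∃ k : ℤ, Commute (c ^ k) (g * c * g⁻¹) ∧
    c ^ k ∉ Subgroup.center W := by
  have hq : (g * c * g⁻¹).q = g.q * Equiv.swap 0 1 * g.q⁻¹ := rfl
  rcases key g.q with h | h | h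
  · refine ⟨(70 : ℕ), ?_, ?_⟩
    · rw [zpow_natCast, c_70, commute_tr_iff, hq]
      exact h
    · rw [zpow_natCast, c_70]
      exact not_central (i := 0) (j := 3) (by decide)
  · refine ⟨(42 : ℕ), ?_, ?_⟩
    · rw [zpow_natCast, c_42, commute_tr_iff, hq]
      exact h
    · rw [zpow_natCast, c_42]
      exact not_central (i := 0) (j := 2) (by decide)
  · refine ⟨(30 : ℕ), ?_, ?_⟩
    · rw [zpow_natCast, c_30, commute_tr_iff, hq]
      exact h
    · rw [zpow_natCast, c_30]
      exact not_central (i := 0) (j := 2) (by decide)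

theorem normal_eq_top (K : Subgroup W) [hK : K.Normal] (hc : c ∈ K) : K = ⊤ := by
  have h3 : tr u3 ∈ K := by rw [← c_70]; exact K.pow_mem hc _
  have h5 : tr u5 ∈ K := by rw [← c_42]; exact K.pow_mem hc _
  have h7 : tr u7 ∈ K := by rw [← c_30]; exact K.pow_mem hc _
  have hconj : ∀ (q : Equiv.Perm (Fin 4)) (v : Fin 4 → ZMod 105), tr v ∈ K →
      (tr fun i => v (q⁻¹ i)) ∈ K := by
    intro q v hv
    rw [← conj_tr]
    exact hK.conj_mem _ hv _
  have hadd : ∀ v w : Fin 4 → ZMod 105, tr v ∈ K → tr w ∈ K → tr (v + w) ∈ K := by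
    intro v w hv hw
    rw [← tr_mul]
    exact K.mul_mem hv hw
  have hsmul : ∀ (n : ℕ) (v : Fin 4 → ZMod 105), tr v ∈ K → tr (n • v) ∈ K := by
    intro n v hv
    rw [← tr_pow]
    exact K.pow_mem hv _
  have h3' : tr (Pi.single 3 70) ∈ K := by
    have : (Pi.single 3 70 : Fin 4 → ZMod 105) = u3 := by decide
    rw [this]; exact h3
  have h5' : tr (Pi.single 3 21) ∈ K := by
    have h := hsmul 3 _ (hconj (Equiv.swap 2 3) _ h5)
    have e : (3 • (fun i => u5 ((Equiv.swap 2 3 : Equiv.Perm (Fin 4))⁻¹ i)) :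
      Fin 4 → ZMod 105) = Pi.single 3 21 := by decide
    rwa [e] at h
  have h7' : tr (Pi.single 3 15) ∈ K := by
    have h7n : tr (-u7) ∈ K := by rw [← tr_inv]; exact K.inv_mem h7
    have h := hadd _ _ (hadd _ _ (hconj (Equiv.swap 1 3) _ h7) (hconj (Equiv.swap 0 3) _ h7))
      h7n
    have h' := hsmul 2 _ h
    have e : (2 • ((((fun i => u7 ((Equiv.swap 1 3 : Equiv.Perm (Fin 4))⁻¹ i)) +
      (fun i => u7 ((Equiv.swap 0 3 : Equiv.Perm (Fin 4))⁻¹ i))) + -u7)) :
      Fin 4 → ZMod 105) = Pi.single 3 15 := by decide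
    rwa [e] at h'
  have h1 : tr (Pi.single 3 1) ∈ K := by
    have h := hadd _ _ (hadd _ _ h3' h5') h7'
    have e : ((Pi.single 3 70 + Pi.single 3 21) + Pi.single 3 15 : Fin 4 → ZMod 105) =
      Pi.single 3 1 := by decide
    rwa [e] at h
  have hi : ∀ i : Fin 4, tr (Pi.single i 1) ∈ K := by
    intro i
    have e : (fun j => (Pi.single 3 1 : Fin 4 → ZMod 105)
      ((Equiv.swap i 3 : Equiv.Perm (Fin 4))⁻¹ j)) = Pi.single i 1 := by
      revert i; decide
    have h := hconj (Equiv.swap i 3) _ h1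
    rwa [e] at h
  have hia : ∀ (i : Fin 4) (a : ZMod 105), tr (Pi.single i a) ∈ K := by
    intro i a
    have h := hsmul a.val _ (hi i)
    have e : a.val • (Pi.single i 1 : Fin 4 → ZMod 105) = Pi.single i a := by
      rw [← Pi.single_smul, nsmul_eq_mul, ZMod.natCast_zmod_val, mul_one]
    rwa [e] at h
  have hall : ∀ v : Fin 4 → ZMod 105, tr v ∈ K := by
    intro v
    have e : v = ((Pi.single 0 (v 0) + Pi.single 1 (v 1)) +
        Pi.single 2 (v 2)) + Pi.single 3 (v 3) := by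
      funext j
      fin_cases j <;> simp
    rw [e]
    exact hadd _ _ (hadd _ _ (hadd _ _ (hia 0 _) (hia 1 _)) (hia 2 _)) (hia 3 _)
  have hsw : pm (Equiv.swap 0 1) ∈ K := by
    have : pm (Equiv.swap 0 1) = (tr m)⁻¹ * c := by
      ext i <;> simp [mul_def, inv_def, tr, pm, c]
    rw [this]
    exact K.mul_mem (K.inv_mem (hall m)) hc
  have hswall : ∀ i j : Fin 4, i ≠ j → pm (Equiv.swap i j) ∈ K := by
    intro i j hij
    have h : ∃ q : Equiv.Perm (Fin 4), q * Equiv.swap 0 1 * q⁻¹ = Equiv.swap i j := by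
      revert i j; decide
    obtain ⟨q, hq⟩ := h
    rw [← hq, ← pm_mul, ← pm_mul, ← pm_inv]
    exact hK.conj_mem _ hsw _
  have hpm : ∀ q : Equiv.Perm (Fin 4), pm q ∈ K := by
    intro q
    induction q using Equiv.Perm.swap_induction_on with
    | one => exact K.one_mem
    | swap_mul f x y hxy ih =>
      rw [← pm_mul]
      exact K.mul_mem (hswall x y hxy) ih
  rw [eq_top_iff]
  rintro ⟨v, q⟩ -
  rw [← tr_mul_pm]
  exact K.mul_mem (hall v) (hpm q)

/-- There are a finite group `G` and a conjugacy class `C` of `G` that generates `G` such that, for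
all `c` and `z` in `C`, some power of `c` commutes with `z` but is not central in `G`. -/
theorem result : ∃ (G : Type) (_ : Group G) (_ : Finite G) (C : ConjClasses G),
    Subgroup.closure C.carrier = ⊤ ∧
    ∀ c ∈ C.carrier, ∀ z ∈ C.carrier, ∃ k : ℤ, Commute (c ^ k) z ∧
      c ^ k ∉ Subgroup.center G := by
  refine ⟨W, inferInstance, inferInstance, ConjClasses.mk c, ?_, ?_⟩
  · have hcar : (ConjClasses.mk c).carrier = {z | IsConj c z} := by
      ext z
      rw [ConjClasses.mem_carrier_iff_mk_eq, ConjClasses.mk_eq_mk_iff_isConj]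
      exact isConj_comm
    have hN : (Subgroup.closure (ConjClasses.mk c).carrier).Normal := by
      rw [hcar]
      constructor
      intro n hn g
      have : MulAut.conj g n ∈ (Subgroup.closure {z | IsConj c z}).map
          (MulAut.conj g).toMonoidHom := Subgroup.mem_map_of_mem _ hn
      rw [MonoidHom.map_closure] at this
      refine Subgroup.closure_mono ?_ this
      rintro _ ⟨z, hz, rfl⟩
      exact IsConj.trans hz (isConj_iff.2 ⟨g, rfl⟩)
    apply normal_eq_top _ (Subgroup.subset_closure _)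
    rw [hcar]
    exact IsConj.refl c
  · intro x hx z hz
    rw [ConjClasses.mem_carrier_iff_mk_eq, ConjClasses.mk_eq_mk_iff_isConj] at hx hz
    obtain ⟨g, hg⟩ := isConj_iff.1 hx.symm
    obtain ⟨h, hh⟩ := isConj_iff.1 hz.symm
    obtain ⟨k, h1, h2⟩ := exists_power (g⁻¹ * h)
    refine ⟨k, ?_, ?_⟩
    · have e1 : x ^ k = g * c ^ k * g⁻¹ := by rw [← hg, conj_zpow]
      have e2 : z = g * ((g⁻¹ * h) * c * (g⁻¹ * h)⁻¹) * g⁻¹ := by rw [← hh]; group
      rw [e1, e2]
      exact (Commute.conj_iff g).2 h1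
    · intro h3
      apply h2
      have e1 : c ^ k = g⁻¹ * x ^ k * g⁻¹⁻¹ := by rw [← hg, conj_zpow]; group
      rw [e1]
      exact (inferInstance : (Subgroup.center W).Normal).conj_mem _ h3 _

end Pool.Agent.Results.MP_d14d1f_al.WreathCounterexample
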